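import Pool.Agent.H523.ZG.Stm

/-! # Project ZG, task Y (helper840): the sum of the local products over a disc, lower bound -/

set_option autoImplicit false
set_option linter.unusedSectionVars false

namespace Pool.Agent.H840.ZG.Y

open Polynomial Finset
open Pool.Agent.H523.FF (PL mem_PL card_PL two_le_card)
open Pool.Agent.H523.CM (gP aP cB gP_pos cB_values norm_gt monic_pr natDegree_pr prod_dvd_iff
  card_multiples)
open Pool.Agent.H523.ZG (S_Y)

open scoped Classical

variable {F : Type} [Field F] [Fintype F]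

/-- the norm of a product of primes -/
noncomputable def nm (t : Finset F[X]) : ℝ := ∏ P ∈ t, (Fintype.card F : ℝ) ^ P.natDegree

theorem nm_eq (t : Finset F[X]) : nm t = (Fintype.card F : ℝ) ^ ∑ P ∈ t, P.natDegree :=
  prod_pow_eq_pow_sum _ _ _

/-- the number of the common multiples -/
noncomputable def ct (K : ℕ) (t : Finset F[X]) : ℝ :=
  (((PL F K).filter (fun h => ∀ P ∈ t, P ∣ h)).card : ℝ)

theorem ct_eq (K : ℕ) {t : Finset F[X]} (ht : ∀ P ∈ t, P.Monic ∧ Irreducible P) :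
    ct K t = if ∑ P ∈ t, P.natDegree < K then
      (Fintype.card F : ℝ) ^ (K - ∑ P ∈ t, P.natDegree) else 1 := by
  have h1 := card_multiples (m := K) ht
  have h2 : (PL F K).filter (fun h => ∀ P ∈ t, P ∣ h) =
      insert 0 ((PL F K).filter (fun h => h ≠ 0 ∧ ∏ P ∈ t, P ∣ h)) := by
    ext x
    rw [mem_insert, mem_filter, mem_filter, prod_dvd_iff ht]
    constructor
    · rintro ⟨h3, h4⟩
      by_cases hx : x = 0
      · exact Or.inl hx
      · exact Or.inr ⟨h3, hx, h4⟩
    · rintro (h3 | h3)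
      · rw [h3]
        refine ⟨mem_PL.mpr ?_, fun P _ => dvd_zero _⟩
        rw [degree_zero]
        exact WithBot.bot_lt_coe K
      · exact ⟨h3.1, h3.2.2⟩
  unfold ct
  rw [h2, card_insert_of_notMem (by
    rw [mem_filter]
    rintro ⟨_, h3, _⟩
    exact h3 rfl)]
  push_cast
  rw [h1]
  split_ifs <;> ring

theorem diff (K : ℕ) {t : Finset F[X]} (ht : ∀ P ∈ t, P.Monic ∧ Irreducible P) :
    |nm t * ct K t - nm t| ≤ (Fintype.card F : ℝ) ^ K := by
  have hq := two_le_card (F := F)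
  have hK : (0 : ℝ) < (Fintype.card F : ℝ) ^ K := by positivity
  rw [ct_eq K ht, nm_eq]
  split_ifs with h
  · rw [← pow_add, Nat.add_sub_of_le h.le]
    have h1 : (0 : ℝ) < (Fintype.card F : ℝ) ^ ∑ P ∈ t, P.natDegree := by positivity
    have h2 : (Fintype.card F : ℝ) ^ (∑ P ∈ t, P.natDegree) ≤ (Fintype.card F : ℝ) ^ K :=
      pow_le_pow_right₀ (by linarith) h.le
    rw [abs_of_nonneg (by linarith)]
    linarith
  · rw [mul_one, sub_self, abs_zero]
    exact hK.le

theorem cB_eq {P : F[X]} (hP : Irreducible P) (h : F[X]) :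
    cB P h = gP P ^ 2 * ((if P ∣ h then (Fintype.card F : ℝ) ^ P.natDegree else 0) + (-1)) := by
  have hn := norm_gt hP
  rw [cB_values hP]
  have h1 : (Fintype.card F : ℝ) ^ P.natDegree - 1 ≠ 0 := by linarith
  split_ifs
  · unfold gP
    rw [← sub_eq_add_neg]
    field_simp
  · ring

theorem expand (K : ℕ) {s : Finset F[X]} (hs : ∀ P ∈ s, P.Monic ∧ Irreducible P) :
    ∑ h ∈ PL F K, ∏ P ∈ s, cB P h =
      (∏ P ∈ s, gP P ^ 2) * ∑ t ∈ s.powerset, (nm t * ct K t) * (-1) ^ (s \ t).card := by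
  have h1 : ∀ h : F[X], ∏ P ∈ s, cB P h = (∏ P ∈ s, gP P ^ 2) *
      ∑ t ∈ s.powerset, (if ∀ P ∈ t, P ∣ h then nm t else 0) * (-1) ^ (s \ t).card := by
    intro h
    rw [prod_congr rfl fun P hP => cB_eq (hs P hP).2 h, prod_mul_distrib, prod_add]
    congr 1
    refine sum_congr rfl fun t _ => ?_
    rw [prod_ite_zero, prod_const]
    rfl
  rw [sum_congr rfl fun h _ => h1 h, ← mul_sum, sum_comm]
  congr 1
  refine sum_congr rfl fun t _ => ?_
  rw [← sum_mul, ← sum_filter, sum_const, nsmul_eq_mul]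
  congr 1
  exact mul_comm _ _

theorem total {s : Finset F[X]} (hs : ∀ P ∈ s, P.Monic ∧ Irreducible P) :
    (∏ P ∈ s, gP P ^ 2) * ∑ t ∈ s.powerset, nm t * (-1) ^ (s \ t).card = ∏ P ∈ s, gP P := by
  have h1 : ∑ t ∈ s.powerset, nm t * (-1) ^ (s \ t).card =
      ∏ P ∈ s, ((Fintype.card F : ℝ) ^ P.natDegree + (-1)) := by
    rw [prod_add]
    refine sum_congr rfl fun t _ => ?_
    rw [prod_const]
    rfl
  rw [h1, ← prod_mul_distrib]
  refine prod_congr rfl fun P hP => ?_
  have hn := norm_gt (hs P hP).2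
  have h1 : (Fintype.card F : ℝ) ^ P.natDegree - 1 ≠ 0 := by linarith
  unfold gP
  rw [← sub_eq_add_neg]
  field_simp

theorem main : S_Y := by
  intro F _ _ s K hs _
  rw [expand K hs, ← total hs]
  have hpos : 0 ≤ ∏ P ∈ s, gP P ^ 2 := prod_nonneg fun P _ => sq_nonneg _
  have h1 : |∑ t ∈ s.powerset, (nm t * ct K t) * (-1) ^ (s \ t).card -
      ∑ t ∈ s.powerset, nm t * (-1) ^ (s \ t).card| ≤
      (Fintype.card F : ℝ) ^ K * 2 ^ s.card := by
    rw [← sum_sub_distrib]
    refine (abs_sum_le_sum_abs _ _).trans ?_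
    have h2 : ∀ t ∈ s.powerset, |(nm t * ct K t) * (-1) ^ (s \ t).card -
        nm t * (-1) ^ (s \ t).card| ≤ (Fintype.card F : ℝ) ^ K := by
      intro t ht
      have h3 := diff K (fun P hP => hs P (mem_powerset.1 ht hP))
      rw [← sub_mul, abs_mul, abs_pow, abs_neg, abs_one, one_pow, mul_one]
      exact h3
    refine (sum_le_sum h2).trans (le_of_eq ?_)
    rw [sum_const, card_powerset, nsmul_eq_mul]
    push_cast
    ring
  have h2 := (abs_le.1 h1).1
  have h3 := mul_le_mul_of_nonneg_left h2 hpos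
  rw [mul_sub] at h3
  linarith

end Pool.Agent.H840.ZG.Y
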